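import Pool.Agent.TH882.K4
import Pool.Agent.TH882.I4

/-! Simultaneous representations `n_j = g_j(p) + q_j` with a common prime `p` from a set of primes which is
dense in most reduced classes, for almost all vectors without local obstruction. -/

set_option autoImplicit false

open Finset Filter Topology Polynomial

namespace Pool.Agent.U215.Gold

open Pool.Agent.H361R2.PP
open Pool.Agent.TH882.PC (wX wX_one wX_pos)
open Pool.Agent.TH882.IS (rhoS RepA IP isoD Isol)
open Pool.Agent.TH882.JS (MostDense clsM Rd)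
open Pool.Agent.TH882.KS (LocV sing_most)
open Pool.Agent.H373R2.T7 (cf abs_eval_le)

open Classical in
/-- the elements `n` of `A` in `[X, 2X)` for which all `k_j - g_j(n)` are prime -/
noncomputable def GolA {r : ℕ} (A : ℕ → ℕ → Finset ℕ) (g : Fin r → ℤ[X]) (X : ℕ) (k : Fin r → ℕ) :
    Finset ℕ :=
  (Ico X (2 * X)).filter (fun n => n ∈ A X (n % Wm X) ∧
    ∀ j, ((k j : ℤ) - (g j).eval (n : ℤ)).toNat.Prime)

open Classical in
/-- few vectors of a box have a small coordinate -/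
lemma small_coord {r : ℕ} (d : Fin r → ℕ) (K x : ℕ) (a : Fin r → ℕ) (η : ℝ)
    (hη : 0 ≤ η) (ha : ∀ j, ((a j : ℕ) : ℝ) ≤ η * (x : ℝ) ^ d j) (j : Fin r) :
    (((Fintype.piFinset (fun i : Fin r => Icc 1 (K * x ^ d i))).filter
      (fun k => k j ≤ a j)).card : ℝ) ≤ η * ((K : ℝ) + 1) ^ r * ∏ i, (x : ℝ) ^ d i := by
  have h1 : (Fintype.piFinset (fun i : Fin r => Icc 1 (K * x ^ d i))).filter (fun k => k j ≤ a j) ⊆
      Fintype.piFinset (fun i : Fin r => if i = j then Icc 1 (a i) else Icc 1 (K * x ^ d i)) := by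
    intro k hk
    rw [mem_filter, Fintype.mem_piFinset] at hk
    rw [Fintype.mem_piFinset]
    intro i
    have h2 := mem_Icc.1 (hk.1 i)
    by_cases hij : i = j
    · subst hij
      rw [if_pos rfl, mem_Icc]
      exact ⟨h2.1, hk.2⟩
    · rw [if_neg hij]
      exact hk.1 i
  have h2 := card_le_card h1
  rw [Fintype.card_piFinset] at h2
  have h3 : (((Fintype.piFinset (fun i : Fin r => Icc 1 (K * x ^ d i))).filter
      (fun k => k j ≤ a j)).card : ℝ) ≤
      ∏ i, ((if i = j then Icc 1 (a i) else Icc 1 (K * x ^ d i)).card : ℝ) := by exact_mod_cast h2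
  refine h3.trans ?_
  have h4 : ∏ i, ((if i = j then Icc 1 (a i) else Icc 1 (K * x ^ d i)).card : ℝ) ≤
      ∏ i, ((if i = j then η else 1) * (((K : ℝ) + 1) * (x : ℝ) ^ d i)) := by
    apply Finset.prod_le_prod (fun i _ => Nat.cast_nonneg _)
    intro i _
    have hx0 : (0 : ℝ) ≤ (x : ℝ) ^ d i := by positivity
    have hK0 : (0 : ℝ) ≤ K := Nat.cast_nonneg _
    by_cases hij : i = j
    · subst hij
      rw [if_pos rfl, if_pos rfl, Nat.card_Icc]
      have e1 : ((a i + 1 - 1 : ℕ) : ℝ) = a i := by simp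
      rw [e1]
      refine (ha i).trans ?_
      apply mul_le_mul_of_nonneg_left _ hη
      nlinarith
    · rw [if_neg hij, if_neg hij, Nat.card_Icc, one_mul]
      have e1 : ((K * x ^ d i + 1 - 1 : ℕ) : ℝ) = K * (x : ℝ) ^ d i := by simp
      rw [e1]
      nlinarith
  refine h4.trans (le_of_eq ?_)
  rw [prod_mul_distrib, prod_mul_distrib, prod_ite_eq' univ j, if_pos (mem_univ j), prod_const,
    card_univ, Fintype.card_fin, mul_assoc]

open Classical in
theorem gold_most {r : ℕ} (g : Fin r → ℤ[X]) (hd : ∀ j, 1 ≤ (g j).natDegree)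
    (hl : ∀ j, 0 < (g j).leadingCoeff) (A : ℕ → ℕ → Finset ℕ) (hA : MostDense A) (K : ℕ)
    (κ : ℝ) (hκ : 0 < κ) : ∃ c : ℝ, 0 < c ∧ ∃ t : ℕ, 3 ≤ t ∧ ∃ x₀ : ℕ, ∀ x : ℕ, x₀ ≤ x →
      (((Fintype.piFinset (fun j : Fin r => Icc 1 (K * x ^ (g j).natDegree))).filter
        (fun k => LocV (fun _ => -1) g k ∧ ((GolA A g (x / t) k).card : ℝ) <
          c * (x / Real.log x ^ (r + 1)))).card : ℝ) ≤ κ * ∏ j, (x : ℝ) ^ (g j).natDegree := by
  set η1 : ℝ := κ / (4 * ((r : ℝ) + 1) * ((K : ℝ) + 1) ^ r) with hη1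
  have hη10 : 0 < η1 := by rw [hη1]; positivity
  set Cf : ℕ := ∑ j, cf (g j) * 3 ^ (g j).natDegree with hCf
  obtain ⟨t0, ht0⟩ := exists_nat_gt ((Cf : ℝ) / η1)
  set t : ℕ := t0 + 3 with ht
  have ht3 : 3 ≤ t := by omega
  have htC : (Cf : ℝ) ≤ η1 * t := by
    rw [div_lt_iff₀ hη10] at ht0
    have : (t0 : ℝ) ≤ t := by
      rw [ht]
      push_cast
      linarith
    nlinarith
  set B : ℕ := ∑ j, (cf (g j) * 3 ^ (g j).natDegree + K * (2 * t) ^ (g j).natDegree) + 3 with hB
  have hB0 : (0 : ℝ) < B := by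
    have : 0 < B := by omega
    exact_mod_cast this
  obtain ⟨τ, hτ, hsing⟩ := sing_most (fun _ : Fin r => (-1 : ℤ)) (fun _ => Or.inr rfl) g hd hl
    (κ / 4 / (B : ℝ) ^ r) (by positivity)
  obtain ⟨c0, hc0, X1, h1⟩ := clsM (fun _ : Fin r => (-1 : ℤ)) (fun _ => Or.inr rfl) g hd hl B
    (κ / 4) τ (by positivity) hτ A hA
  have hpos : ∀ j, ∃ n0 : ℕ, ∀ n : ℕ, n0 ≤ n → 0 ≤ (g j).eval (n : ℤ) := fun j =>
    Pool.Agent.TH882.PA.pos (g j) (hd j) (hl j) 0
  choose n0 hn0 using hpos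
  refine ⟨c0 * τ / (2 * t), by positivity, t, ht3, t * (X1 + ∑ j, n0 j + 16), ?_⟩
  intro x hx
  set X : ℕ := x / t with hX
  have htp : 0 < t := by omega
  have hX3 : X * t ≤ x := Nat.div_mul_le_self _ _
  have hXX : X1 + ∑ j, n0 j + 16 ≤ X := by
    rw [hX, Nat.le_div_iff_mul_le htp]
    nlinarith
  have hx4 : x ≤ 2 * t * X := by
    have e1 : x < X * t + t := by
      rw [hX]
      exact Nat.lt_div_mul_add htp
    have e2 : t ≤ X * t := Nat.le_mul_of_pos_left t (by omega)
    have e3 : 2 * t * X = X * t + X * t := by ring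
    omega
  have hn0j : ∀ j, n0 j ≤ X := by
    intro j
    have : n0 j ≤ ∑ j, n0 j := single_le_sum (f := n0) (fun i _ => Nat.zero_le _) (mem_univ j)
    omega
  have hXr : (16 : ℝ) ≤ X := by
    have : 16 ≤ X := by omega
    exact_mod_cast this
  have hX0 : (0 : ℝ) < X := by linarith
  have hXxn : X ≤ x := Nat.div_le_self _ _
  have hXx : (X : ℝ) ≤ x := by exact_mod_cast hXxn
  have hx4r : (x : ℝ) ≤ 2 * t * X := by exact_mod_cast hx4
  have hx0 : (0 : ℝ) < x := by linarith
  have htr : (0 : ℝ) < t := by exact_mod_cast htp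
  set ℓ := Real.log X with hℓ
  have hl1 : 1 ≤ ℓ := by
    rw [hℓ, Real.le_log_iff_exp_le hX0]
    have := Real.exp_one_lt_d9
    linarith
  have hlx : ℓ ≤ Real.log x := Real.log_le_log hX0 hXx
  have hWp := Wm_pos X
  have hW0 : (0 : ℝ) < Wm X := by exact_mod_cast hWp
  have hφ0 : (0 : ℝ) < Nat.totient (Wm X) := by exact_mod_cast Nat.totient_pos.2 hWp
  have hWX : Wm X ≤ X := by
    have e1 := Pool.Agent.H325R2.wtx1 X (by omega)
    have e2 : (Wm X : ℝ) ≤ X := by
      refine e1.trans ?_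
      calc ℓ ^ (7 / 20 : ℝ) ≤ ℓ ^ (1 : ℝ) :=
            Real.rpow_le_rpow_of_exponent_le hl1 (by norm_num)
        _ = ℓ := Real.rpow_one _
        _ ≤ X := by
            have := Real.log_le_sub_one_of_pos hX0
            linarith
    exact_mod_cast e2
  set Y : Fin r → ℕ := fun j => cf (g j) * (3 * X) ^ (g j).natDegree with hY
  have hXd : ∀ j, X ≤ X ^ (g j).natDegree := fun j => by
    calc X = X ^ 1 := (pow_one _).symm
      _ ≤ X ^ (g j).natDegree := Nat.pow_le_pow_right (by omega) (hd j)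
  have hBj : ∀ j, cf (g j) * 3 ^ (g j).natDegree + K * (2 * t) ^ (g j).natDegree + 3 ≤ B := by
    intro j
    have : cf (g j) * 3 ^ (g j).natDegree + K * (2 * t) ^ (g j).natDegree ≤
        ∑ j, (cf (g j) * 3 ^ (g j).natDegree + K * (2 * t) ^ (g j).natDegree) :=
      single_le_sum (f := fun j => cf (g j) * 3 ^ (g j).natDegree + K * (2 * t) ^ (g j).natDegree)
        (fun i _ => Nat.zero_le _) (mem_univ j)
    omega
  have hYX : ∀ j, Y j = cf (g j) * 3 ^ (g j).natDegree * X ^ (g j).natDegree := by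
    intro j
    rw [hY]
    simp only
    rw [mul_pow]
    ring
  have hZB : ∀ j, Y j + 1 + K * x ^ (g j).natDegree + X ≤ B * X ^ (g j).natDegree := by
    intro j
    have e1 := hYX j
    have e2 : K * x ^ (g j).natDegree ≤ K * (2 * t) ^ (g j).natDegree * X ^ (g j).natDegree := by
      calc K * x ^ (g j).natDegree ≤ K * (2 * t * X) ^ (g j).natDegree :=
            Nat.mul_le_mul_left _ (Nat.pow_le_pow_left hx4 _)
        _ = _ := by rw [mul_pow]; ring
    have e3 := Nat.mul_le_mul_right (X ^ (g j).natDegree) (hBj j)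
    have e4 : (cf (g j) * 3 ^ (g j).natDegree + K * (2 * t) ^ (g j).natDegree + 3) *
        X ^ (g j).natDegree = cf (g j) * 3 ^ (g j).natDegree * X ^ (g j).natDegree +
        K * (2 * t) ^ (g j).natDegree * X ^ (g j).natDegree + 3 * X ^ (g j).natDegree := by ring
    rw [e4] at e3
    have e5 : 1 ≤ X ^ (g j).natDegree := Nat.one_le_pow _ _ (by omega)
    have e6 := hXd j
    omega
  have hgY : ∀ j, ∀ n : ℕ, X ≤ n → n ≤ 3 * X → 0 ≤ (g j).eval (n : ℤ) ∧ (g j).eval (n : ℤ) ≤ Y j := by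
    intro j n hn1 hn2
    refine ⟨hn0 j n (by have := hn0j j; omega), ?_⟩
    have e2 := abs_eval_le (g j) n (by omega)
    calc (g j).eval (n : ℤ) ≤ |(g j).eval (n : ℤ)| := le_abs_self _
      _ ≤ (cf (g j) : ℤ) * (n : ℤ) ^ (g j).natDegree := e2
      _ ≤ (Y j : ℤ) := by
          have : cf (g j) * n ^ (g j).natDegree ≤ Y j :=
            Nat.mul_le_mul_left _ (Nat.pow_le_pow_left hn2 _)
          exact_mod_cast this
  obtain ⟨Bd, hB1, hB2⟩ := h1 X (by omega) (fun _ => 0) (fun j => Y j + 1)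
    (fun j => Y j + 1 + K * x ^ (g j).natDegree + X) (by
      intro j n hn1 hn2
      have e1 := hgY j n hn1 hn2
      push_cast
      constructor
      · linarith [e1.1]
      · linarith [e1.2]) (fun j => by omega) (fun j => by omega) hZB
  -- the vectors with small singular series
  set Ex := (Fintype.piFinset (fun j : Fin r => Ico 1 (1 + K * x ^ (g j).natDegree + X))).filter
    (fun k => LocV (fun _ => -1) g k ∧ ((rhoS (fun _ : Fin r => (-1 : ℤ)) g X
      (fun j => (k j : ℤ))).card : ℝ) <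
        τ * ((Nat.totient (Wm X) : ℝ) ^ (r + 1) / (Wm X : ℝ) ^ r)) with hEx
  have hExc : (Ex.card : ℝ) ≤ κ / 4 / (B : ℝ) ^ r *
      ∏ j, (((1 + K * x ^ (g j).natDegree + X : ℕ)) : ℝ) :=
    hsing X hWX (fun _ => 1) (fun j => 1 + K * x ^ (g j).natDegree + X)
      (fun j => by omega) (fun j => by omega)
  set PX : ℝ := ∏ j, (X : ℝ) ^ (g j).natDegree with hPX
  have hPX0 : 0 ≤ PX := prod_nonneg fun j _ => by positivity
  set Px : ℝ := ∏ j, (x : ℝ) ^ (g j).natDegree with hPx
  have hPxx : PX ≤ Px := by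
    apply Finset.prod_le_prod (fun _ _ => by positivity)
    intro j _
    exact pow_le_pow_left₀ hX0.le hXx _
  have hExc2 : (Ex.card : ℝ) ≤ κ / 4 * PX := by
    refine hExc.trans ?_
    have e1 : ∏ j, (((1 + K * x ^ (g j).natDegree + X : ℕ)) : ℝ) ≤ (B : ℝ) ^ r * PX := by
      calc ∏ j, (((1 + K * x ^ (g j).natDegree + X : ℕ)) : ℝ) ≤
          ∏ j, ((B : ℝ) * (X : ℝ) ^ (g j).natDegree) := by
            apply Finset.prod_le_prod (fun _ _ => Nat.cast_nonneg _)
            intro j _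
            have e2 : 1 + K * x ^ (g j).natDegree + X ≤ B * X ^ (g j).natDegree := by
              have := hZB j
              omega
            exact_mod_cast e2
        _ = _ := by
            rw [prod_mul_distrib]
            simp only [prod_const, card_univ, Fintype.card_fin, ← hPX]
    calc κ / 4 / (B : ℝ) ^ r * ∏ j, (((1 + K * x ^ (g j).natDegree + X : ℕ)) : ℝ) ≤
        κ / 4 / (B : ℝ) ^ r * ((B : ℝ) ^ r * PX) := mul_le_mul_of_nonneg_left e1 (by positivity)
      _ = _ := by field_simp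
  -- the vectors with a small coordinate
  set box := Fintype.piFinset (fun j : Fin r => Icc 1 (K * x ^ (g j).natDegree)) with hbox
  set Sm : Fin r → Finset (Fin r → ℕ) := fun j => box.filter (fun k => k j ≤ Y j) with hSm
  have hYη : ∀ j, ((Y j : ℕ) : ℝ) ≤ η1 * (x : ℝ) ^ (g j).natDegree := by
    intro j
    rw [hYX j]
    have e1 : cf (g j) * 3 ^ (g j).natDegree ≤ Cf :=
      single_le_sum (f := fun j => cf (g j) * 3 ^ (g j).natDegree)
        (fun i _ => Nat.zero_le _) (mem_univ j)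
    have e1r : ((cf (g j) * 3 ^ (g j).natDegree : ℕ) : ℝ) ≤ Cf := by exact_mod_cast e1
    have e2 : (t : ℝ) * (X : ℝ) ^ (g j).natDegree ≤ (x : ℝ) ^ (g j).natDegree := by
      have e3 : (t : ℝ) ≤ (t : ℝ) ^ (g j).natDegree := by
        have e4 : (1 : ℝ) ≤ t := by
          have : 1 ≤ t := by omega
          exact_mod_cast this
        calc (t : ℝ) = (t : ℝ) ^ 1 := (pow_one _).symm
          _ ≤ _ := pow_le_pow_right₀ e4 (hd j)
      calc (t : ℝ) * (X : ℝ) ^ (g j).natDegree ≤
          (t : ℝ) ^ (g j).natDegree * (X : ℝ) ^ (g j).natDegree :=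
            mul_le_mul_of_nonneg_right e3 (by positivity)
        _ = (X * t : ℝ) ^ (g j).natDegree := by rw [← mul_pow, mul_comm]
        _ ≤ _ := pow_le_pow_left₀ (by positivity) (by exact_mod_cast hX3) _
    calc ((cf (g j) * 3 ^ (g j).natDegree * X ^ (g j).natDegree : ℕ) : ℝ) =
        ((cf (g j) * 3 ^ (g j).natDegree : ℕ) : ℝ) * (X : ℝ) ^ (g j).natDegree := by push_cast; ring
      _ ≤ (η1 * t) * (X : ℝ) ^ (g j).natDegree :=
          mul_le_mul_of_nonneg_right (e1r.trans htC) (by positivity)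
      _ = η1 * ((t : ℝ) * (X : ℝ) ^ (g j).natDegree) := by ring
      _ ≤ _ := mul_le_mul_of_nonneg_left e2 hη10.le
  have hSmc : ∀ j, ((Sm j).card : ℝ) ≤ η1 * ((K : ℝ) + 1) ^ r * Px := fun j =>
    small_coord (fun j => (g j).natDegree) K x Y η1 hη10.le hYη j
  set Tt := box.filter (fun k => LocV (fun _ => -1) g k ∧ ((GolA A g X k).card : ℝ) <
          c0 * τ / (2 * t) * (x / Real.log x ^ (r + 1))) with hTt
  have hsub : Tt ⊆ Bd ∪ (Ex ∪ univ.biUnion Sm) := by
    intro k hk
    rw [hTt, mem_filter, hbox, Fintype.mem_piFinset] at hk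
    obtain ⟨hk1, hLoc, hno⟩ := hk
    rw [mem_union, mem_union, mem_biUnion]
    by_contra hcon
    rw [not_or, not_or] at hcon
    obtain ⟨hcB, hcE, hcS⟩ := hcon
    have hkI : ∀ j, 1 ≤ k j ∧ k j ≤ K * x ^ (g j).natDegree := fun j => mem_Icc.1 (hk1 j)
    have hkY : ∀ j, Y j < k j := by
      intro j
      by_contra h
      push Not at h
      refine hcS ⟨j, mem_univ j, ?_⟩
      rw [hSm]
      exact mem_filter.2 ⟨Fintype.mem_piFinset.2 hk1, h⟩
    have hρ : τ * ((Nat.totient (Wm X) : ℝ) ^ (r + 1) / (Wm X : ℝ) ^ r) ≤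
        ((rhoS (fun _ : Fin r => (-1 : ℤ)) g X (fun j => (k j : ℤ))).card : ℝ) := by
      by_contra hc
      push Not at hc
      apply hcE
      rw [hEx, mem_filter, Fintype.mem_piFinset]
      refine ⟨fun j => ?_, hLoc, hc⟩
      rw [mem_Ico]
      have := hkI j
      omega
    have e0 : (fun j => ((k j : ℕ) : ℤ) - ((0 : ℕ) : ℤ)) = fun j => (k j : ℤ) := by
      funext j
      simp
    have e1 := hB2 k (by
      rw [Fintype.mem_piFinset]
      intro j
      rw [mem_Ico]
      have := hkI j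
      have := hkY j
      omega) hcB (by
      rw [e0]
      exact hρ)
    rw [e0] at e1
    have e2 : ((RepA (fun _ : Fin r => (-1 : ℤ)) g A X (fun j => (k j : ℤ))).card : ℝ) ≤
        ((GolA A g X k).card : ℝ) := by
      apply Nat.cast_le.2
      apply card_le_card
      intro n hn
      unfold RepA at hn
      unfold GolA
      rw [mem_filter] at hn ⊢
      refine ⟨hn.1, hn.2.1, fun j => ?_⟩
      have := hn.2.2 j
      rwa [neg_one_mul, ← sub_eq_add_neg] at this
    have hwp := wX_pos X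
    have e3 : c0 * τ * (X / ℓ ^ (r + 1)) ≤ c0 * (((rhoS (fun _ : Fin r => (-1 : ℤ)) g X
        (fun j => (k j : ℤ))).card : ℝ) * wX X ^ r *
          (X / (Nat.totient (Wm X) * ℓ ^ (r + 1)))) := by
      have f1 : c0 * τ * (X / ℓ ^ (r + 1)) =
          c0 * ((τ * ((Nat.totient (Wm X) : ℝ) ^ (r + 1) / (Wm X : ℝ) ^ r)) * wX X ^ r *
          (X / (Nat.totient (Wm X) * ℓ ^ (r + 1)))) := by
        unfold wX
        rw [div_pow, pow_succ (Nat.totient (Wm X) : ℝ) r]
        field_simp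
      rw [f1]
      apply mul_le_mul_of_nonneg_left _ hc0.le
      apply mul_le_mul_of_nonneg_right _ (by positivity)
      exact mul_le_mul_of_nonneg_right hρ (by positivity)
    have e4 : c0 * τ / (2 * t) * (x / Real.log x ^ (r + 1)) ≤ c0 * τ * (X / ℓ ^ (r + 1)) := by
      have f1 : (x : ℝ) / Real.log x ^ (r + 1) ≤ 2 * t * X / ℓ ^ (r + 1) :=
        div_le_div₀ (by positivity) hx4r (by positivity)
          (pow_le_pow_left₀ (by linarith) hlx _)
      calc c0 * τ / (2 * t) * (x / Real.log x ^ (r + 1)) ≤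
          c0 * τ / (2 * t) * (2 * t * X / ℓ ^ (r + 1)) :=
            mul_le_mul_of_nonneg_left f1 (by positivity)
        _ = _ := by field_simp
    linarith
  have hc1 := card_le_card hsub
  have hc2 := card_union_le Bd (Ex ∪ univ.biUnion Sm)
  have hc3 := card_union_le Ex (univ.biUnion Sm)
  have hc4 : (univ.biUnion Sm).card ≤ ∑ j, (Sm j).card := card_biUnion_le
  have hc5 : (Tt.card : ℝ) ≤ (Bd.card : ℝ) + (Ex.card + ∑ j, ((Sm j).card : ℝ)) := by
    exact_mod_cast hc1.trans (hc2.trans (Nat.add_le_add_left (hc3.trans (Nat.add_le_add_left hc4 _)) _))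
  have hB1' : (Bd.card : ℝ) ≤ κ / 4 * PX := hB1
  have hPx0 : 0 ≤ Px := hPX0.trans hPxx
  have hc6 : ∑ j, ((Sm j).card : ℝ) ≤ κ / 4 * Px := by
    refine (sum_le_sum fun j _ => hSmc j).trans ?_
    rw [sum_const, card_univ, Fintype.card_fin, nsmul_eq_mul, ← mul_assoc]
    apply mul_le_mul_of_nonneg_right _ hPx0
    rw [hη1]
    have e1 : (r : ℝ) * (κ / (4 * ((r : ℝ) + 1) * ((K : ℝ) + 1) ^ r) * ((K : ℝ) + 1) ^ r) =
        κ / 4 * (r / (r + 1)) := by
      field_simp
    rw [e1]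
    have e2 : (r : ℝ) / (r + 1) ≤ 1 := by
      rw [div_le_one (by positivity)]
      linarith
    have e3 : 0 < κ / 4 := by positivity
    nlinarith
  have e7 : κ / 4 * PX ≤ κ / 4 * Px := mul_le_mul_of_nonneg_left hPxx (by positivity)
  have e8 : 0 ≤ κ / 4 * Px := by positivity
  calc (Tt.card : ℝ) ≤ κ / 4 * Px + (κ / 4 * Px + κ / 4 * Px) := by linarith
    _ ≤ _ := by linarith

/-- the isolated primes are dense in all classes -/
lemma iso_most (Λ : ℝ) (hΛ : 0 < Λ) : MostDense (IP Λ) := by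
  classical
  constructor
  · intro X b n hn
    unfold IP at hn
    rw [mem_filter] at hn ⊢
    exact ⟨hn.1, hn.2.1⟩
  · intro η hη
    obtain ⟨c, hc, X0, h⟩ := isoD Λ hΛ
    refine ⟨c, hc, X0, fun X hX => ?_⟩
    have h1 : (Rd X).filter (fun b => ((IP Λ X b).card : ℝ) <
        c * (X / (Nat.totient (Wm X) * Real.log X))) = ∅ := by
      apply filter_eq_empty_iff.2
      intro b hb
      unfold Rd at hb
      rw [mem_filter, mem_range] at hb
      exact not_lt.2 (h X hX b hb.1 hb.2)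
    rw [h1, card_empty]
    push_cast
    positivity

end Pool.Agent.U215.Gold
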